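import Pool.Agent.Helper70_PDS.Stmts

/-!
# Modules SINGLE and LEFT
-/

namespace PDS.H46

open Multiset

/-- Raising a vertex `e` times. -/
theorem raise_iter {c i k : ℕ} (h : Raise c i k) (x : ℕ) (D : Multiset ℕ) (hD : Rz (x ::ₘ D))
    (e : ℕ) : Rz ((x + c * e) ::ₘ (D + replicate (k * e) i)) := by
  induction e with
  | zero => simpa using hD
  | succ e ih =>
    have := h _ _ ih
    have h1 : x + c * (e + 1) = x + c * e + c := by ring
    have h2 : k * (e + 1) = k * e + k := by ring
    rw [h1, h2, replicate_add, ← Multiset.add_assoc]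
    exact this

/-- The statement of `SingleStmt` for one multiset. -/
def P (i : ℕ) (R : Multiset ℕ) : Prop :=
  ∃ a : ℕ, cap i * a ≤ (R.map fun x => 6 * x + 15).sum ∧ Rz (R + replicate a i)

theorem P_add (hadd : AddStmt) {i : ℕ} {R S : Multiset ℕ} (hR : P i R) (hS : P i S) :
    P i (R + S) := by
  obtain ⟨a, ha, hRa⟩ := hR
  obtain ⟨b, hb, hSb⟩ := hS
  refine ⟨a + b, ?_, ?_⟩
  · rw [Multiset.map_add, Multiset.sum_add, Nat.mul_add]
    omega
  · have := hadd _ _ hRa hSb
    rw [replicate_add]
    have h2 : R + S + (replicate a i + replicate b i) =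
      R + replicate a i + (S + replicate b i) := by abel
    rw [h2]
    exact this

theorem P_zero (h0 : Rz 0) (i : ℕ) : P i 0 := ⟨0, by simp, by simpa using h0⟩

/-- One even entry. -/
theorem P_even {i k : ℕ} (h0 : Rz {0}) (h : Raise 2 i k) (hk : cap i * k ≤ 12) (e : ℕ) :
    P i {2 * e} := by
  have h0' : Rz (0 ::ₘ (0 : Multiset ℕ)) := h0
  have := raise_iter h 0 0 h0' e
  refine ⟨k * e, ?_, ?_⟩
  · have : cap i * (k * e) ≤ 12 * e := by
      rw [← mul_assoc]; exact Nat.mul_le_mul_right _ hk
    simp only [Multiset.map_singleton, Multiset.sum_singleton]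
    omega
  · simpa using this

/-- One odd entry. -/
theorem P_odd {i k k' : ℕ} (h0 : Rz {0}) (h : Raise 2 i k) (hk : cap i * k ≤ 12)
    (h' : Raise 1 i k') (hk' : cap i * k' ≤ 15) (e : ℕ) : P i {2 * e + 1} := by
  have h0' : Rz (0 ::ₘ (0 : Multiset ℕ)) := h0
  have := h' _ _ (raise_iter h 0 0 h0' e)
  refine ⟨k * e + k', ?_, ?_⟩
  · have h1 : cap i * (k * e) ≤ 12 * e := by
      rw [← mul_assoc]; exact Nat.mul_le_mul_right _ hk
    simp only [Multiset.map_singleton, Multiset.sum_singleton, Nat.mul_add]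
    omega
  · rw [replicate_add]
    simpa using this

/-- Two odd entries. -/
theorem P_pair {i k : ℕ} (h1 : Rz (replicate 2 1)) (h : Raise 2 i k) (hk : cap i * k ≤ 12)
    (e f : ℕ) : P i {2 * e + 1, 2 * f + 1} := by
  have h1' : Rz (1 ::ₘ ({1} : Multiset ℕ)) := by
    have : replicate 2 1 = 1 ::ₘ ({1} : Multiset ℕ) := by decide
    rwa [this] at h1
  have h2 := raise_iter h 1 {1} h1' e
  have h3 : (1 + 2 * e) ::ₘ ({1} + replicate (k * e) i) =
      1 ::ₘ ((1 + 2 * e) ::ₘ replicate (k * e) i) := by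
    rw [Multiset.singleton_add, Multiset.cons_swap]
  rw [h3] at h2
  have h4 := raise_iter h 1 _ h2 f
  refine ⟨k * e + k * f, ?_, ?_⟩
  · have h1 : cap i * (k * e) ≤ 12 * e := by
      rw [← mul_assoc]; exact Nat.mul_le_mul_right _ hk
    have h2 : cap i * (k * f) ≤ 12 * f := by
      rw [← mul_assoc]; exact Nat.mul_le_mul_right _ hk
    simp only [Multiset.insert_eq_cons, Multiset.map_cons, Multiset.sum_cons,
      Multiset.map_singleton, Multiset.sum_singleton, Nat.mul_add]
    omega
  · have h5 : ({2 * e + 1, 2 * f + 1} : Multiset ℕ) + replicate (k * e + k * f) i =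
        (1 + 2 * f) ::ₘ ((1 + 2 * e) ::ₘ replicate (k * e) i + replicate (k * f) i) := by
      rw [replicate_add, Multiset.insert_eq_cons, add_comm 1 (2 * f), add_comm 1 (2 * e),
        Multiset.cons_add, Multiset.cons_add, Multiset.singleton_add, Multiset.cons_swap]
    rw [h5]
    exact h4

theorem exists_odd (R : Multiset ℕ) (h : R.sum % 2 = 1) : ∃ y ∈ R, y % 2 = 1 := by
  induction R using Multiset.induction with
  | empty => simp at h
  | cons a R ih =>
    rw [Multiset.sum_cons] at h
    by_cases ha : a % 2 = 1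
    · exact ⟨a, Multiset.mem_cons_self a R, ha⟩
    · obtain ⟨y, hy, hy2⟩ := ih (by omega)
      exact ⟨y, Multiset.mem_cons_of_mem hy, hy2⟩

/-- SINGLE. -/
theorem single (hg : GadStmt) (hs : SmallStmt) (hadd : AddStmt) : SingleStmt := by
  obtain ⟨g21, g22, g23, g24, g25, g11, g13, g15⟩ := hg
  obtain ⟨z0, z1, z2, -, -, -, -, -⟩ := hs
  -- the odd case
  have hodd : ∀ i k k' : ℕ, Raise 2 i k → cap i * k ≤ 12 → Raise 1 i k' → cap i * k' ≤ 15 →
      ∀ R : Multiset ℕ, P i R := by
    intro i k k' h hk h' hk' R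
    induction R using Multiset.induction with
    | empty => exact P_zero z0 i
    | cons a R ih =>
      rw [← Multiset.singleton_add]
      refine P_add hadd ?_ ih
      rcases Nat.even_or_odd' a with ⟨e, rfl | rfl⟩
      · exact P_even z1 h hk e
      · exact P_odd z1 h hk h' hk' e
  -- the even case
  have heven : ∀ i k : ℕ, Raise 2 i k → cap i * k ≤ 12 →
      ∀ (n : ℕ) (R : Multiset ℕ), card R ≤ n → R.sum % 2 = 0 → P i R := by
    intro i k h hk n
    induction n with
    | zero =>
      intro R hR _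
      have : R = 0 := Multiset.card_eq_zero.mp (by omega)
      subst this
      exact P_zero z0 i
    | succ n ih =>
      intro R hR hsum
      by_cases hR0 : R = 0
      · subst hR0
        exact P_zero z0 i
      obtain ⟨x, hx⟩ := Multiset.exists_mem_of_ne_zero hR0
      obtain ⟨R', rfl⟩ := Multiset.exists_cons_of_mem hx
      rw [Multiset.card_cons] at hR
      rw [Multiset.sum_cons] at hsum
      rcases Nat.even_or_odd' x with ⟨e, rfl | rfl⟩
      · rw [← Multiset.singleton_add]
        exact P_add hadd (P_even z1 h hk e) (ih R' (by omega) (by omega))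
      · obtain ⟨y, hy, hy2⟩ := exists_odd R' (by omega)
        obtain ⟨R'', rfl⟩ := Multiset.exists_cons_of_mem hy
        obtain ⟨f, rfl⟩ : ∃ f, y = 2 * f + 1 := ⟨y / 2, by omega⟩
        rw [Multiset.card_cons] at hR
        rw [Multiset.sum_cons] at hsum
        have h5 : (2 * e + 1) ::ₘ (2 * f + 1) ::ₘ R'' = {2 * e + 1, 2 * f + 1} + R'' := by
          rw [Multiset.insert_eq_cons, Multiset.cons_add, Multiset.singleton_add]
        rw [h5]
        exact P_add hadd (P_pair z2 h hk e f) (ih R'' (by omega) (by omega))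
  intro i hi1 hi5 R hR
  have : P i R := by
    interval_cases i
    · exact hodd 1 2 1 g21 (by decide) g11 (by decide) R
    · exact heven 2 2 g22 (by decide) _ R le_rfl (hR rfl)
    · exact hodd 3 4 5 g23 (by decide) g13 (by decide) R
    · exact heven 4 6 g24 (by decide) _ R le_rfl (hR rfl)
    · exact hodd 5 12 15 g25 (by decide) g15 (by decide) R
  exact this

theorem rep_add (hadd : AddStmt) {i a b : ℕ} (ha : Rz (replicate a i)) (hb : Rz (replicate b i)) :
    Rz (replicate (a + b) i) := by
  rw [replicate_add]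
  exact hadd _ _ ha hb

theorem rep_mul (hadd : AddStmt) (h0 : Rz 0) {i a : ℕ} (ha : Rz (replicate a i)) (n : ℕ) :
    Rz (replicate (a * n) i) := by
  induction n with
  | zero => simpa using h0
  | succ n ih =>
    rw [Nat.mul_succ]
    exact rep_add hadd ih ha

/-- LEFT. -/
theorem left (hg : GadStmt) (hs : SmallStmt) (hadd : AddStmt) : LeftStmt := by
  obtain ⟨-, -, g23, g24, g25, -, -, -⟩ := hg
  obtain ⟨z0, z1, z2, z32, z42, z43, z64, z125⟩ := hs
  have h1' : Rz (1 ::ₘ ({1} : Multiset ℕ)) := by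
    have : replicate 2 1 = 1 ::ₘ ({1} : Multiset ℕ) := by decide
    rwa [this] at z2
  intro i hi1 hi5 m hm hpar
  interval_cases i
  · obtain ⟨n, rfl⟩ : ∃ n, m = 2 * n := ⟨m / 2, by omega⟩
    exact rep_mul hadd z0 z2 n
  · have h : m = 4 * (m % 3) + 3 * ((m - 4 * (m % 3)) / 3) := by omega
    rw [h]
    exact rep_add hadd (rep_mul hadd z0 z42 _) (rep_mul hadd z0 z32 _)
  · have h10 : Rz (replicate 10 3) := by
      have h2 := g23 _ _ h1'
      have h3 : (1 + 2) ::ₘ (({1} : Multiset ℕ) + replicate 4 3) =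
        1 ::ₘ replicate 5 3 := by decide
      rw [h3] at h2
      have h4 := g23 _ _ h2
      have h5 : (1 + 2) ::ₘ (replicate 5 3 + replicate 4 3) = replicate 10 3 := by decide
      rwa [h5] at h4
    have h : m = 10 * (m % 4 / 2) + 4 * ((m - 10 * (m % 4 / 2)) / 4) := by omega
    rw [h]
    exact rep_add hadd (rep_mul hadd z0 h10 _) (rep_mul hadd z0 z43 _)
  · have h13 : Rz (replicate 13 4) := by
      have h2 := g24 _ _ z1
      have h4 := g24 _ _ h2
      have h5 : (0 + 2 + 2) ::ₘ (0 + replicate 6 4 + replicate 6 4) = replicate 13 4 := by decide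
      rwa [h5] at h4
    have h : m = 13 * (m % 6) + 6 * ((m - 13 * (m % 6)) / 6) := by omega
    rw [h]
    exact rep_add hadd (rep_mul hadd z0 h13 _) (rep_mul hadd z0 z64 _)
  · have h50 : Rz (replicate 50 5) := by
      have h2 := raise_iter g25 _ _ h1' 2
      have h3 : (1 + 2 * 2) ::ₘ (({1} : Multiset ℕ) + replicate (12 * 2) 5) =
        1 ::ₘ replicate 25 5 := by decide
      rw [h3] at h2
      have h4 := raise_iter g25 _ _ h2 2
      have h5 : (1 + 2 * 2) ::ₘ (replicate 25 5 + replicate (12 * 2) 5) = replicate 50 5 := by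
        decide
      rwa [h5] at h4
    have h : m = 50 * (m % 12 / 2) + 12 * ((m - 50 * (m % 12 / 2)) / 12) := by omega
    rw [h]
    exact rep_add hadd (rep_mul hadd z0 h50 _) (rep_mul hadd z0 z125 _)

end PDS.H46
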